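import Pool.Agent.Y856.Metric.Of
import Pool.Agent.R481.TH.Tot

/-! Families of systems of sets of residues: few members fail the bound of Elliott and Halberstam over a set of moduli. -/

set_option autoImplicit false

namespace Pool.Agent.V7H6.HR

open Finset
open Pool.Agent.Y856

/-- coincidences of two systems of sets of residues, over the moduli in `𝒬` -/
def coin (𝒬 : Finset ℕ) (T T' : ℕ → Finset ℤ) : ℕ :=
  ∑ q ∈ 𝒬, ((T q ×ˢ T' q).filter (fun z => z.1 ≡ z.2 [ZMOD q])).card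

/-- the bound over the moduli in `𝒬` and the residues in `T(q)` -/
def Good (U x : ℕ) (𝒬 : Finset ℕ) (T : ℕ → Finset ℤ) : Prop :=
  ∀ y : ℕ → ℕ, (∀ q, y q ≤ x) → ∀ b : ℕ → ℤ,
    ∑ q ∈ 𝒬.filter (fun q => b q ∈ T q ∧ Int.gcd (b q) q = 1),
      |(piZ (y q) q (b q) : ℝ) - (piN (y q) : ℝ) / (Nat.totient q : ℝ)| ≤ x / Real.log x ^ U

/-- the residues modulo `q` which are represented by `T(q)` -/
def res (T : ℕ → Finset ℤ) (q : ℕ) : Finset ℕ := (T q).image (fun l : ℤ => (l % (q : ℤ)).toNat)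

lemma res_card (T : ℕ → Finset ℤ) (q : ℕ) : (res T q).card ≤ (T q).card := card_image_le

lemma toNat_eq (q : ℕ) (hq : 1 ≤ q) (l l' : ℤ) (h : (l % q).toNat = (l' % q).toNat) : l ≡ l' [ZMOD q] := by
  have h1 := (res_facts q hq l).2
  have h2 := (res_facts q hq l').2
  unfold Int.ModEq
  rw [← h1, ← h2, h]

lemma res_inter (T T' : ℕ → Finset ℤ) (q : ℕ) (hq : 1 ≤ q) :
    (res T q ∩ res T' q).card ≤ ((T q ×ˢ T' q).filter (fun z => z.1 ≡ z.2 [ZMOD q])).card := by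
  classical
  have h : res T q ∩ res T' q ⊆ ((T q ×ˢ T' q).filter (fun z => z.1 ≡ z.2 [ZMOD q])).image
      (fun z : ℤ × ℤ => (z.1 % (q : ℤ)).toNat) := by
    intro e he
    rw [mem_inter] at he
    obtain ⟨h1, h2⟩ := he
    unfold res at h1 h2
    rw [mem_image] at h1 h2
    obtain ⟨l, hl, hle⟩ := h1
    obtain ⟨l', hl', hle'⟩ := h2
    rw [mem_image]
    refine ⟨(l, l'), ?_, hle⟩
    rw [mem_filter, mem_product]
    exact ⟨⟨hl, hl'⟩, toNat_eq q hq l l' (hle.trans hle'.symm)⟩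
  exact (card_le_card h).trans card_image_le

/-- Cauchy-Schwarz over the exceptional residues modulo `q` -/
lemma cs_q {ι : Type} (I : Finset ι) (R : ι → Finset ℕ) (E : Finset ℕ) :
    (∑ i ∈ I, ((R i ∩ E).card : ℝ)) ^ 2 ≤ E.card * ∑ i ∈ I, ∑ j ∈ I, ((R i ∩ R j).card : ℝ) := by
  classical
  have h1 : ∑ i ∈ I, ((R i ∩ E).card : ℝ) = ∑ e ∈ E, ∑ i ∈ I, (if e ∈ R i then (1 : ℝ) else 0) := by
    rw [sum_comm]
    apply sum_congr rfl
    intro i _
    rw [← sum_filter, sum_const, nsmul_eq_mul, mul_one]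
    congr 2
    ext e
    rw [mem_inter, mem_filter]
    tauto
  have h2 : ∑ i ∈ I, ∑ j ∈ I, ((R i ∩ R j).card : ℝ) =
      ∑ e ∈ I.biUnion R, (∑ i ∈ I, (if e ∈ R i then (1 : ℝ) else 0)) ^ 2 := by
    simp only [sq, sum_mul_sum]
    rw [sum_comm' (s := I.biUnion R) (t := fun _ => I) (t' := I) (s' := fun _ => I.biUnion R) (by
      intro x y; tauto)]
    apply sum_congr rfl
    intro i hi
    rw [sum_comm]
    apply sum_congr rfl
    intro j hj
    have h3 : ∀ e, (if e ∈ R i then (1 : ℝ) else 0) * (if e ∈ R j then (1 : ℝ) else 0) =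
        if e ∈ R i ∩ R j then 1 else 0 := by
      intro e
      by_cases h1 : e ∈ R i <;> by_cases h2 : e ∈ R j <;> simp [h1, h2]
    simp only [h3]
    rw [← sum_filter, sum_const, nsmul_eq_mul, mul_one]
    congr 2
    ext e
    rw [mem_filter, mem_biUnion, mem_inter]
    constructor
    · intro h
      exact ⟨⟨i, hi, h.1⟩, h⟩
    · intro h
      exact h.2
  rw [h1]
  refine (sq_sum_le_card_mul_sum_sq (s := E) (f := fun e => ∑ i ∈ I, (if e ∈ R i then (1 : ℝ) else 0))).trans ?_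
  apply mul_le_mul_of_nonneg_left _ (Nat.cast_nonneg _)
  rw [h2]
  have h4 : ∑ e ∈ E, (∑ i ∈ I, (if e ∈ R i then (1 : ℝ) else 0)) ^ 2 =
      ∑ e ∈ E.filter (fun e => e ∈ I.biUnion R), (∑ i ∈ I, (if e ∈ R i then (1 : ℝ) else 0)) ^ 2 := by
    rw [sum_filter]
    apply sum_congr rfl
    intro e _
    split_ifs with h
    · rfl
    · have h5 : ∑ i ∈ I, (if e ∈ R i then (1 : ℝ) else 0) = 0 := by
        apply sum_eq_zero
        intro i hi
        rw [if_neg]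
        intro h6
        exact h (mem_biUnion.2 ⟨i, hi, h6⟩)
      rw [h5]
      norm_num
  rw [h4]
  apply sum_le_sum_of_subset_of_nonneg
  · intro e he
    exact (mem_filter.1 he).2
  · intro e _ _
    positivity

/-- the moduli with an exceptional residue of one bad member have a large weight -/
lemma bad_weight (U N : ℕ) (E : ℕ → Finset ℕ) (hE : SP (U + 1) N E) (hN : 2 ≤ Real.log N) (hN0 : 0 < N)
    (𝒬 : Finset ℕ) (hQ : 𝒬 ⊆ Icc 1 N) (T : ℕ → Finset ℤ) (h : ¬ Good U N 𝒬 T) :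
    1 / (4 * Real.log N ^ U) ≤ ∑ q ∈ 𝒬, ((res T q ∩ E q).card : ℝ) / (Nat.totient q : ℝ) := by
  unfold Good at h
  push Not at h
  obtain ⟨y, hy, b, hb⟩ := h
  have hNr : (0 : ℝ) < N := by exact_mod_cast hN0
  have hL0 : 0 < Real.log N := by linarith
  obtain ⟨Q, hQdef⟩ : ∃ Q, Q = 𝒬.filter (fun q => b q ∈ T q ∧ Int.gcd (b q) q = 1) := ⟨_, rfl⟩
  obtain ⟨a, ha⟩ : ∃ a : ℕ → ℕ, a = fun q => (b q % q).toNat := ⟨_, rfl⟩
  rw [← hQdef] at hb
  have hQQ : Q ⊆ 𝒬 := by rw [hQdef]; exact filter_subset _ _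
  have h1 : ∀ q ∈ Q, 1 ≤ q := fun q hq => (mem_Icc.1 (hQ (hQQ hq))).1
  have h2 := hE y hy a Q (hQQ.trans hQ) (by
    intro q hq
    have h3 := hq
    rw [hQdef, mem_filter] at h3
    rw [ha]
    exact ⟨(res_facts q (h1 q hq) (b q)).1, res_coprime q (h1 q hq) (b q) h3.2.2⟩)
  have h3 : ∑ q ∈ Q, |(piZ (y q) q (b q) : ℝ) - (piN (y q) : ℝ) / (Nat.totient q : ℝ)| =
      ∑ q ∈ Q, dev (y q) q (a q) := by
    apply sum_congr rfl
    intro q hq
    rw [ha]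
    exact dev_eq (y q) q (h1 q hq) (b q)
  rw [h3] at hb
  have h4 : ∑ q ∈ Q.filter (fun q => a q ∈ E q), 2 * N / (Nat.totient q : ℝ) ≤
      2 * N * ∑ q ∈ 𝒬, ((res T q ∩ E q).card : ℝ) / (Nat.totient q : ℝ) := by
    rw [mul_sum]
    have h5 : ∀ q ∈ Q.filter (fun q => a q ∈ E q), 2 * (N : ℝ) / (Nat.totient q : ℝ) ≤
        2 * N * (((res T q ∩ E q).card : ℝ) / (Nat.totient q : ℝ)) := by
      intro q hq
      rw [mem_filter] at hq
      have h6 : (1 : ℝ) ≤ ((res T q ∩ E q).card : ℝ) := by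
        have : 0 < (res T q ∩ E q).card := by
          apply card_pos.2
          refine ⟨a q, mem_inter.2 ⟨?_, hq.2⟩⟩
          have h7 := hq.1
          rw [hQdef, mem_filter] at h7
          unfold res
          rw [mem_image]
          exact ⟨b q, h7.2.1, by rw [ha]⟩
        exact_mod_cast this
      have h8 : (0 : ℝ) < Nat.totient q := by exact_mod_cast Nat.totient_pos.2 (h1 q hq.1)
      rw [mul_div_assoc]
      have h9 : 1 / (Nat.totient q : ℝ) ≤ ((res T q ∩ E q).card : ℝ) / (Nat.totient q : ℝ) := by gcongr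
      calc 2 * ((N : ℝ) / (Nat.totient q : ℝ)) = 2 * N * (1 / (Nat.totient q : ℝ)) := by ring
        _ ≤ _ := by gcongr
    refine (sum_le_sum h5).trans ?_
    apply sum_le_sum_of_subset_of_nonneg ((filter_subset _ _).trans hQQ)
    intro q _ _
    positivity
  have h5 : (N : ℝ) / Real.log N ^ (U + 1) ≤ N / Real.log N ^ U / 2 := by
    rw [pow_succ, ← div_div]
    apply div_le_div_of_nonneg_left (by positivity) (by norm_num) hN
  have h6 : (N : ℝ) / Real.log N ^ U / 2 ≤ 2 * N * ∑ q ∈ 𝒬, ((res T q ∩ E q).card : ℝ) / (Nat.totient q : ℝ) := by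
    linarith
  have h7 : 2 * (N : ℝ) * (1 / (4 * Real.log N ^ U)) ≤
      2 * N * ∑ q ∈ 𝒬, ((res T q ∩ E q).card : ℝ) / (Nat.totient q : ℝ) := by
    refine le_trans (le_of_eq ?_) h6
    field_simp
    norm_num
  exact le_of_mul_le_mul_left h7 (by positivity)

lemma card_rpow_sum {ι : Type} (I : Finset ι) (T : ι → ℕ → Finset ℤ) (𝒬 : Finset ℕ) (H : ℕ) (K : ℝ) (hK : 0 ≤ K)
    (hQ : ∀ q ∈ 𝒬, 1 ≤ q)
    (hH : ∀ i ∈ I, ∀ q ∈ 𝒬, (T i q).card ≤ H) (hc : ∀ i ∈ I, ∀ j ∈ I, i ≠ j → (coin 𝒬 (T i) (T j) : ℝ) ≤ K) :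
    ∑ q ∈ 𝒬, ∑ i ∈ I, ∑ j ∈ I, ((res (T i) q ∩ res (T j) q).card : ℝ) ≤
      I.card * (H * 𝒬.card) + I.card ^ 2 * K := by
  classical
  rw [sum_comm]
  have h1 : ∀ i ∈ I, ∑ q ∈ 𝒬, ∑ j ∈ I, ((res (T i) q ∩ res (T j) q).card : ℝ) ≤ H * 𝒬.card + I.card * K := by
    intro i hi
    rw [sum_comm]
    have h2 : ∀ j ∈ I, ∑ q ∈ 𝒬, ((res (T i) q ∩ res (T j) q).card : ℝ) ≤
        (if j = i then (H : ℝ) * 𝒬.card else 0) + K := by
      intro j hj
      by_cases hji : j = i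
      · rw [if_pos hji, hji]
        have h3 : ∑ q ∈ 𝒬, ((res (T i) q ∩ res (T i) q).card : ℝ) ≤ ∑ _q ∈ 𝒬, (H : ℝ) := by
          apply sum_le_sum
          intro q hq
          rw [inter_self]
          exact_mod_cast (res_card (T i) q).trans (hH i hi q hq)
        rw [sum_const, nsmul_eq_mul] at h3
        have : (𝒬.card : ℝ) * H = H * 𝒬.card := mul_comm _ _
        linarith
      · rw [if_neg hji, zero_add]
        refine le_trans ?_ (hc i hi j hj (Ne.symm hji))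
        unfold coin
        push_cast
        apply sum_le_sum
        intro q hq
        exact_mod_cast res_inter (T i) (T j) q (hQ q hq)
    refine (sum_le_sum h2).trans (le_of_eq ?_)
    rw [sum_add_distrib, sum_ite_eq' I i, if_pos hi, sum_const, nsmul_eq_mul]
  refine (sum_le_sum h1).trans (le_of_eq ?_)
  rw [sum_const, nsmul_eq_mul]
  ring

/-- **few bad members** -/
theorem family (U : ℕ) : ∃ B x₀ : ℕ, ∀ N : ℕ, x₀ ≤ N → ∀ 𝒬 : Finset ℕ, 𝒬 ⊆ Icc 1 N →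
    ∀ (ι : Type) (I : Finset ι) (T : ι → ℕ → Finset ℤ) (H : ℕ),
      (∀ i ∈ I, ∀ q ∈ 𝒬, (T i q).card ≤ H) →
      (∀ i ∈ I, ∀ j ∈ I, i ≠ j → (coin 𝒬 (T i) (T j) : ℝ) * (𝒬.card * Real.log N ^ B) ≤ N) →
      (∀ i ∈ I, ¬ Good U N 𝒬 (T i)) →
      (I.card : ℝ) ≤ H * (𝒬.card : ℝ) ^ 2 / N * Real.log N ^ B := by
  classical
  obtain ⟨B₀, x₁, E, hE⟩ := scale_choice (U + 1)
  refine ⟨B₀ + 2 * U + 9, x₁ + 10 ^ 6, fun N hN 𝒬 hQ ι I T H hH hc hbad => ?_⟩
  obtain ⟨hE1, hE2⟩ := hE N (by omega)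
  have hN0 : 0 < N := by omega
  have hNr : (0 : ℝ) < N := by exact_mod_cast hN0
  obtain ⟨L, hL⟩ : ∃ L, L = Real.log N := ⟨_, rfl⟩
  have hL9 : 9 ≤ L := by
    rw [hL, Real.le_log_iff_exp_le hNr]
    have h1 : Real.exp 9 = Real.exp 1 ^ 9 := by rw [← Real.exp_nat_mul]; norm_num
    have h2 : Real.exp 1 ≤ 3 := by linarith [Real.exp_one_lt_d9]
    have h3 : Real.exp 1 ^ 9 ≤ 3 ^ 9 := pow_le_pow_left₀ (Real.exp_pos 1).le h2 9
    have h4 : ((10 ^ 6 : ℕ) : ℝ) ≤ N := by exact_mod_cast (by omega : 10 ^ 6 ≤ N)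
    push_cast at h4
    rw [h1]
    norm_num at h3 ⊢
    linarith
  have hL0 : 0 < L := by linarith
  have hL1 : 1 ≤ L := by linarith
  rcases I.eq_empty_or_nonempty with hI | ⟨i0, hi0⟩
  · rw [hI, card_empty, Nat.cast_zero]; positivity
  rcases 𝒬.eq_empty_or_nonempty with hQe | ⟨q0, hq0⟩
  · exfalso
    apply hbad i0 hi0
    intro y _ b
    rw [hQe, filter_empty, sum_empty]
    rw [← hL]
    positivity
  have hQ1 : ∀ q ∈ 𝒬, 1 ≤ q := fun q hq => (mem_Icc.1 (hQ hq)).1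
  obtain ⟨n, hn⟩ : ∃ n : ℝ, n = (I.card : ℝ) := ⟨_, rfl⟩
  obtain ⟨m, hm⟩ : ∃ m : ℝ, m = (𝒬.card : ℝ) := ⟨_, rfl⟩
  have hn0 : 0 < n := by rw [hn]; exact_mod_cast card_pos.2 ⟨i0, hi0⟩
  have hm0 : 0 < m := by rw [hm]; exact_mod_cast card_pos.2 ⟨q0, hq0⟩
  rw [← hn, ← hm, ← hL]
  rw [← hL, ← hm] at hc
  -- the weights
  have h1 : n * (1 / (4 * L ^ U)) ≤ ∑ i ∈ I, ∑ q ∈ 𝒬, ((res (T i) q ∩ E N q).card : ℝ) / (Nat.totient q : ℝ) := by
    rw [hn, ← nsmul_eq_mul, ← sum_const]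
    apply sum_le_sum
    intro i hi
    rw [hL]
    exact bad_weight U N (E N) hE2 (by rw [← hL]; linarith) hN0 𝒬 hQ (T i) (hbad i hi)
  obtain ⟨W, hW⟩ : ∃ W : ℕ → ℝ, W = fun q => ∑ i ∈ I, ∑ j ∈ I, ((res (T i) q ∩ res (T j) q).card : ℝ) := ⟨_, rfl⟩
  have hW0 : ∀ q, 0 ≤ W q := fun q => by rw [hW]; positivity
  have h2 : ∀ q ∈ 𝒬, (∑ i ∈ I, ((res (T i) q ∩ E N q).card : ℝ) / (Nat.totient q : ℝ)) ^ 2 ≤
      (L ^ (B₀ + 3) / N) * W q * 1 := by
    intro q hq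
    have hq1 := hQ1 q hq
    have hqN : q ≤ N := (mem_Icc.1 (hQ hq)).2
    have hq0 : (0 : ℝ) < q := by exact_mod_cast hq1
    have hφ : (0 : ℝ) < Nat.totient q := by exact_mod_cast Nat.totient_pos.2 hq1
    have e1 : (∑ i ∈ I, ((res (T i) q ∩ E N q).card : ℝ)) ^ 2 ≤ ((E N q).card : ℝ) * W q := by
      rw [hW]
      exact cs_q I (fun i => res (T i) q) (E N q)
    have e2 := hE1 q hq1
    rw [← hL] at e2
    have e3 : (q : ℝ) ≤ 3 * L * Nat.totient q := by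
      have h5 := Pool.Agent.R481.TH.le_log_mul_totient q (by omega)
      have h6 : (q : ℝ) ≤ ((Nat.log 2 q : ℕ) + 1 : ℝ) * Nat.totient q := by exact_mod_cast h5
      refine h6.trans ?_
      gcongr
      have h7 : ((Nat.log 2 q : ℕ) : ℝ) ≤ Real.log q / Real.log 2 := by
        have := Real.natLog_le_logb q 2
        unfold Real.logb at this
        exact_mod_cast this
      have h8 : Real.log q ≤ L := by
        rw [hL]
        exact Real.log_le_log hq0 (by exact_mod_cast hqN)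
      have h9 : Real.log q / Real.log 2 ≤ 2 * L := by
        rw [div_le_iff₀ (Real.log_pos (by norm_num))]
        have := Real.log_two_gt_d9
        nlinarith
      linarith
    rw [← sum_div, div_pow, div_le_iff₀ (by positivity), mul_one]
    calc (∑ i ∈ I, ((res (T i) q ∩ E N q).card : ℝ)) ^ 2 ≤ ((E N q).card : ℝ) * W q := e1
      _ ≤ (L ^ B₀ * (q : ℝ) ^ 2 / N) * W q := mul_le_mul_of_nonneg_right e2 (hW0 q)
      _ ≤ (L ^ B₀ * (3 * L * Nat.totient q) ^ 2 / N) * W q := by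
          apply mul_le_mul_of_nonneg_right _ (hW0 q)
          gcongr
      _ = (9 * L ^ (B₀ + 2) / N * W q) * (Nat.totient q : ℝ) ^ 2 := by ring
      _ ≤ (L ^ (B₀ + 3) / N * W q) * (Nat.totient q : ℝ) ^ 2 := by
          have h5 : 9 * L ^ (B₀ + 2) ≤ L ^ (B₀ + 3) := by
            rw [show B₀ + 3 = (B₀ + 2) + 1 by ring, pow_succ L (B₀ + 2), mul_comm (L ^ (B₀ + 2)) L]
            exact mul_le_mul_of_nonneg_right hL9 (by positivity)
          have := hW0 q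
          gcongr
  have hK0 : 0 ≤ (N : ℝ) / (m * L ^ (B₀ + 2 * U + 9)) := by positivity
  have h3 : ∑ q ∈ 𝒬, W q ≤ n * (H * m) + n ^ 2 * (N / (m * L ^ (B₀ + 2 * U + 9))) := by
    rw [hW, hn, hm]
    apply card_rpow_sum I T 𝒬 H _ (by rw [← hm]; exact hK0) hQ1 hH
    intro i hi j hj hij
    rw [le_div_iff₀ (by rw [← hm]; positivity), ← hm]
    exact hc i hi j hj hij
  have h4 : (∑ q ∈ 𝒬, ∑ i ∈ I, ((res (T i) q ∩ E N q).card : ℝ) / (Nat.totient q : ℝ)) ^ 2 ≤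
      m * ((L ^ (B₀ + 3) / N) * ∑ q ∈ 𝒬, W q) := by
    refine (sq_sum_le_card_mul_sum_sq).trans ?_
    rw [← hm]
    apply mul_le_mul_of_nonneg_left _ hm0.le
    rw [mul_sum]
    apply sum_le_sum
    intro q hq
    have := h2 q hq
    rwa [mul_one] at this
  rw [sum_comm] at h1
  have h5 : (n * (1 / (4 * L ^ U))) ^ 2 ≤ m * ((L ^ (B₀ + 3) / N) *
      (n * (H * m) + n ^ 2 * (N / (m * L ^ (B₀ + 2 * U + 9))))) := by
    calc (n * (1 / (4 * L ^ U))) ^ 2 ≤ _ := pow_le_pow_left₀ (by positivity) h1 2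
      _ ≤ m * ((L ^ (B₀ + 3) / N) * ∑ q ∈ 𝒬, W q) := h4
      _ ≤ _ := by gcongr
  -- solve
  have h6 : n ^ 2 * N ≤ 16 * L ^ (B₀ + 2 * U + 3) * (m ^ 2 * H) * n + n ^ 2 * N * (16 / L ^ 6) := by
    have e1 : (n * (1 / (4 * L ^ U))) ^ 2 = n ^ 2 / (16 * L ^ (2 * U)) := by
      rw [mul_pow, div_pow, one_pow, mul_pow, ← pow_mul, mul_comm U 2]
      ring
    rw [e1, div_le_iff₀ (by positivity)] at h5
    have e2 : L ^ (B₀ + 2 * U + 9) = L ^ (B₀ + 3) * L ^ (2 * U) * L ^ 6 := by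
      rw [← pow_add, ← pow_add]; congr 1; ring
    have e3 : L ^ (B₀ + 2 * U + 3) = L ^ (B₀ + 3) * L ^ (2 * U) := by
      rw [← pow_add]; congr 1; ring
    calc n ^ 2 * N ≤ (m * ((L ^ (B₀ + 3) / N) *
          (n * (H * m) + n ^ 2 * (N / (m * L ^ (B₀ + 2 * U + 9))))) * (16 * L ^ (2 * U))) * N := by
          gcongr
      _ = _ := by
          rw [e2, e3]
          field_simp
  have h7 : n ^ 2 * N * (16 / L ^ 6) ≤ n ^ 2 * N * (1 / 2) := by
    apply mul_le_mul_of_nonneg_left _ (by positivity)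
    have h6' : (0 : ℝ) < L ^ 6 := by positivity
    rw [div_le_div_iff₀ h6' (by norm_num)]
    have : (9 : ℝ) ^ 6 ≤ L ^ 6 := pow_le_pow_left₀ (by norm_num) hL9 6
    norm_num at this ⊢
    linarith
  have h8 : n * N ≤ 32 * L ^ (B₀ + 2 * U + 3) * (m ^ 2 * H) := by
    have h9 : (n * N) * n ≤ (32 * L ^ (B₀ + 2 * U + 3) * (m ^ 2 * H)) * n := by nlinarith
    exact le_of_mul_le_mul_right h9 hn0
  have h10 : 32 * L ^ (B₀ + 2 * U + 3) ≤ L ^ (B₀ + 2 * U + 9) := by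
    rw [show B₀ + 2 * U + 9 = (B₀ + 2 * U + 3) + 6 by ring, pow_add L (B₀ + 2 * U + 3) 6,
      mul_comm (L ^ (B₀ + 2 * U + 3)) (L ^ 6)]
    apply mul_le_mul_of_nonneg_right _ (by positivity)
    have : (9 : ℝ) ^ 6 ≤ L ^ 6 := pow_le_pow_left₀ (by norm_num) hL9 6
    norm_num at this ⊢
    linarith
  rw [div_mul_eq_mul_div, le_div_iff₀ hNr]
  calc n * N ≤ 32 * L ^ (B₀ + 2 * U + 3) * (m ^ 2 * H) := h8
    _ ≤ L ^ (B₀ + 2 * U + 9) * (m ^ 2 * H) := by gcongr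
    _ = _ := by ring

end Pool.Agent.V7H6.HR
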