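import Pool.Agent.V7H6.HR.A

/-! Neighbourhoods of integers: from the number of the moduli which divide a difference to the number of bad integers. -/

set_option autoImplicit false

namespace Pool.Agent.V7H6.HR

open Finset
open Pool.Agent.Y856

/-- the integers at a distance of at most `H` from `a`, as a system -/
noncomputable def nbd (H : ℕ) (a : ℤ) : ℕ → Finset ℤ := fun _ => Icc (a - H) (a + H)

lemma nbd_card (H : ℕ) (a : ℤ) (q : ℕ) : (nbd H a q).card = 2 * H + 1 := by
  unfold nbd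
  rw [Int.card_Icc]
  omega

lemma coin_nbd (𝒬 : Finset ℕ) (H : ℕ) (a b : ℤ) (hab : 2 * (H : ℤ) < |a - b|) (X K : ℝ) (ha : |(a : ℝ)| ≤ X)
    (hb : |(b : ℝ)| ≤ X) (hK : ∀ m : ℤ, m ≠ 0 → |(m : ℝ)| ≤ 2 * X + 2 * H → ((𝒬.filter (fun q : ℕ => (q : ℤ) ∣ m)).card : ℝ) ≤ K) :
    (coin 𝒬 (nbd H a) (nbd H b) : ℝ) ≤ (2 * H + 1) ^ 2 * K := by
  classical
  have h1 : (coin 𝒬 (nbd H a) (nbd H b) : ℝ) = ∑ z ∈ Icc (a - H) (a + H) ×ˢ Icc (b - H) (b + H),
      ((𝒬.filter (fun q : ℕ => z.1 ≡ z.2 [ZMOD q])).card : ℝ) := by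
    unfold coin nbd
    simp only [card_filter]
    push_cast
    rw [sum_comm]
  rw [h1]
  have h2 : ∀ z ∈ Icc (a - H) (a + H) ×ˢ Icc (b - H) (b + H),
      ((𝒬.filter (fun q : ℕ => z.1 ≡ z.2 [ZMOD q])).card : ℝ) ≤ K := by
    intro z hz
    rw [mem_product, mem_Icc, mem_Icc] at hz
    have hne : z.2 - z.1 ≠ 0 := by
      intro h0
      have h3 : |a - b| ≤ 2 * H := by
        rw [abs_le]
        constructor <;> omega
      omega
    refine le_trans (le_of_eq ?_) (hK (z.2 - z.1) hne ?_)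
    · congr 2
      ext q
      rw [mem_filter, mem_filter, Int.modEq_iff_dvd]
    · push_cast
      have e1 := abs_le.1 ha
      have e2 := abs_le.1 hb
      have e3 : ((a : ℝ) - H ≤ z.1 ∧ (z.1 : ℝ) ≤ a + H) := by
        constructor
        · exact_mod_cast hz.1.1
        · exact_mod_cast hz.1.2
      have e4 : ((b : ℝ) - H ≤ z.2 ∧ (z.2 : ℝ) ≤ b + H) := by
        constructor
        · exact_mod_cast hz.2.1
        · exact_mod_cast hz.2.2
      rw [abs_le]
      constructor <;> linarith [e3.1, e3.2, e4.1, e4.2]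
  refine (sum_le_sum h2).trans (le_of_eq ?_)
  rw [sum_const, card_product, nsmul_eq_mul]
  have h3 := nbd_card H a 0
  have h4 := nbd_card H b 0
  unfold nbd at h3 h4
  rw [h3, h4]
  push_cast
  ring

/-- few bad integers -/
theorem few_nbd (U : ℕ) : ∃ B x₀ : ℕ, ∀ N : ℕ, x₀ ≤ N → ∀ 𝒬 : Finset ℕ, 𝒬 ⊆ Icc 1 N → ∀ (H : ℕ) (X K : ℝ),
    (∀ m : ℤ, m ≠ 0 → |(m : ℝ)| ≤ 2 * X + 2 * H → ((𝒬.filter (fun q : ℕ => (q : ℤ) ∣ m)).card : ℝ) ≤ K) →
    (2 * H + 1) ^ 2 * K * (𝒬.card * Real.log N ^ B) ≤ N →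
    ∀ A : Finset ℤ, (∀ a ∈ A, |(a : ℝ)| ≤ X ∧ ¬ Good U N 𝒬 (nbd H a)) →
      (A.card : ℝ) ≤ (2 * H + 1) ^ 2 * ((𝒬.card : ℝ) ^ 2 / N * Real.log N ^ B) := by
  classical
  obtain ⟨B, x₀, h⟩ := family U
  refine ⟨B, x₀, fun N hN 𝒬 hQ H X K hK hcond A hA => ?_⟩
  obtain ⟨M, hM⟩ : ∃ M : ℕ, M = 2 * H + 1 := ⟨_, rfl⟩
  have hlog : 0 ≤ Real.log N := Real.log_natCast_nonneg N
  -- classes modulo `M`
  have h1 : ∀ c ∈ range M, ((A.filter (fun a => (a % (M : ℤ)).toNat = c)).card : ℝ) ≤
      M * ((𝒬.card : ℝ) ^ 2 / N * Real.log N ^ B) := by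
    intro c _
    have h2 := h N hN 𝒬 hQ ℤ (A.filter (fun a => (a % (M : ℤ)).toNat = c)) (fun a => nbd H a) M
      (fun a _ q _ => by rw [nbd_card, hM]) (by
        intro a ha b hb hab
        rw [mem_filter] at ha hb
        have h3 : (M : ℤ) ≤ |a - b| := by
          have hM0 : (M : ℤ) ≠ 0 := by rw [hM]; push_cast; omega
          have h4 : a ≡ b [ZMOD M] := by
            have e1 : ((a % (M : ℤ)).toNat : ℤ) = a % M := Int.toNat_of_nonneg (Int.emod_nonneg _ hM0)
            have e2 : ((b % (M : ℤ)).toNat : ℤ) = b % M := Int.toNat_of_nonneg (Int.emod_nonneg _ hM0)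
            unfold Int.ModEq
            rw [← e1, ← e2, ha.2, hb.2]
          have h5 : (M : ℤ) ∣ a - b := (Int.modEq_iff_dvd.1 h4.symm)
          have h6 : a - b ≠ 0 := sub_ne_zero.2 hab
          exact Int.le_of_dvd (abs_pos.2 h6) ((dvd_abs _ _).2 h5)
        have h7 := coin_nbd 𝒬 H a b (by rw [hM] at h3; push_cast at h3; omega) X K (hA a ha.1).1 (hA b hb.1).1 hK
        refine le_trans ?_ hcond
        apply mul_le_mul_of_nonneg_right h7 (by positivity))
      (fun a ha => (hA a (mem_filter.1 ha).1).2)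
    refine h2.trans (le_of_eq ?_)
    ring
  have h2 : (A.card : ℝ) = ∑ c ∈ range M, ((A.filter (fun a => (a % (M : ℤ)).toNat = c)).card : ℝ) := by
    have h3 := card_eq_sum_card_fiberwise (s := A) (t := range M) (f := fun a => (a % (M : ℤ)).toNat) (by
      intro a _
      rw [coe_range, Set.mem_Iio]
      have hM0 : (0 : ℤ) < (M : ℤ) := by rw [hM]; push_cast; omega
      have := Int.emod_lt_of_pos a hM0
      have h5 := Int.emod_nonneg a hM0.ne'
      show (a % (M : ℤ)).toNat < M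
      omega)
    exact_mod_cast h3
  rw [h2]
  refine (sum_le_sum h1).trans (le_of_eq ?_)
  rw [sum_const, card_range, nsmul_eq_mul, hM]
  push_cast
  ring

/-- the number of the divisors with at most `r` prime factors -/
lemma card_div (m : ℕ) (hm : m ≠ 0) (r : ℕ) :
    (m.divisors.filter (fun d => d.primeFactorsList.length ≤ r)).card ≤ (m.primeFactors.card + 1) ^ r := by
  classical
  induction r with
  | zero =>
    rw [pow_zero, card_le_one]
    intro a ha b hb
    rw [mem_filter, Nat.mem_divisors, Nat.le_zero, List.length_eq_zero_iff, Nat.primeFactorsList_eq_nil] at ha hb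
    have h1 : a ≠ 0 := ne_zero_of_dvd_ne_zero hm ha.1.1
    have h2 : b ≠ 0 := ne_zero_of_dvd_ne_zero hm hb.1.1
    omega
  | succ r ih =>
    have h1 : m.divisors.filter (fun d => d.primeFactorsList.length ≤ r + 1) ⊆
        ((insert 1 m.primeFactors) ×ˢ (m.divisors.filter (fun d => d.primeFactorsList.length ≤ r))).image
          (fun z => z.1 * z.2) := by
      intro d hd
      rw [mem_filter, Nat.mem_divisors] at hd
      obtain ⟨⟨hdm, _⟩, hl⟩ := hd
      have hd0 : d ≠ 0 := ne_zero_of_dvd_ne_zero hm hdm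
      rw [mem_image]
      by_cases h1 : d = 1
      · refine ⟨(1, 1), ?_, by simp [h1]⟩
        rw [mem_product, mem_filter, Nat.mem_divisors]
        refine ⟨mem_insert_self _ _, ⟨one_dvd _, hm⟩, ?_⟩
        simp
      · obtain ⟨p, hp, hpd⟩ := Nat.exists_prime_and_dvd h1
        obtain ⟨e, he⟩ := hpd
        have he0 : e ≠ 0 := by
          rintro rfl
          rw [mul_zero] at he
          exact hd0 he
        refine ⟨(p, e), ?_, he.symm⟩
        rw [mem_product, mem_filter, Nat.mem_divisors]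
        refine ⟨mem_insert_of_mem (Nat.mem_primeFactors.2 ⟨hp, (Dvd.intro _ he.symm).trans hdm, hm⟩),
          ⟨(Dvd.intro_left _ he.symm).trans hdm, hm⟩, ?_⟩
        have h2 : d.primeFactorsList.length = e.primeFactorsList.length + 1 := by
          have h3 := (Nat.perm_primeFactorsList_mul (a := p) (b := e) hp.ne_zero he0).length_eq
          rw [← he, List.length_append, Nat.primeFactorsList_prime hp, List.length_singleton] at h3
          omega
        show e.primeFactorsList.length ≤ r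
        omega
    refine (card_le_card h1).trans (card_image_le.trans ?_)
    rw [card_product, pow_succ, mul_comm]
    apply Nat.mul_le_mul ih
    exact (card_insert_le _ _)

lemma two_pow_card (m : ℕ) (hm : m ≠ 0) : 2 ^ m.primeFactors.card ≤ m := by
  calc 2 ^ m.primeFactors.card ≤ ∏ p ∈ m.primeFactors, p := by
        rw [← prod_const]
        exact prod_le_prod' fun p hp => (Nat.prime_of_mem_primeFactors hp).two_le
    _ ≤ m := Nat.le_of_dvd (Nat.pos_of_ne_zero hm) (Nat.prod_primeFactors_dvd m)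

/-- the number of the prime factors of an integer -/
lemma card_primes_le (m : ℕ) (hm : m ≠ 0) (Y : ℝ) (h : (m : ℝ) ≤ Real.exp Y) : (m.primeFactors.card : ℝ) ≤ 3 / 2 * Y := by
  have h1 := two_pow_card m hm
  have h2 : (2 : ℝ) ^ m.primeFactors.card ≤ Real.exp Y := by
    refine le_trans ?_ h
    exact_mod_cast h1
  have h3 := Real.log_le_log (by positivity) h2
  rw [Real.log_exp, Real.log_pow] at h3
  have := Real.log_two_gt_d9
  have h4 : (0 : ℝ) ≤ m.primeFactors.card := Nat.cast_nonneg _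
  nlinarith

end Pool.Agent.V7H6.HR
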