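import Pool.Agent.V7H6.HR.B

/-! Moduli with few prime factors, residues of size `exp L`. -/

set_option autoImplicit false

namespace Pool.Agent.V7H6.HR

open Finset Filter
open Pool.Agent.Y856

/-- powers of the logarithm are small -/
lemma log_pow_ev (W : ℕ) : ∀ᶠ N : ℕ in atTop, Real.log N ^ W ≤ N := by
  have h2 := (Real.isLittleO_pow_log_id_atTop (n := W)).bound (c := 1) (by norm_num)
  have h3 := tendsto_natCast_atTop_atTop (R := ℝ) |>.eventually h2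
  filter_upwards [h3, eventually_ge_atTop 1] with N hN hN1
  have h4 : (1 : ℝ) ≤ N := by exact_mod_cast hN1
  have h5 : 0 ≤ Real.log N := Real.log_nonneg h4
  rw [Real.norm_of_nonneg (by positivity), id, Real.norm_of_nonneg (by positivity)] at hN
  linarith

lemma log_ev (C : ℝ) : ∀ᶠ N : ℕ in atTop, C ≤ Real.log N :=
  (Real.tendsto_log_atTop.comp tendsto_natCast_atTop_atTop).eventually_ge_atTop C

/-- **moduli with at most `r` prime factors, residues of size `exp L`** -/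
theorem few_primes (U W r : ℕ) : ∃ B x₀ : ℕ, ∀ N : ℕ, x₀ ≤ N → ∀ 𝒬 : Finset ℕ, 𝒬 ⊆ Icc 1 N →
    (∀ q ∈ 𝒬, q.primeFactorsList.length ≤ r) → ∀ L : ℝ, 1 ≤ L → (𝒬.card : ℝ) * L ^ r * Real.log N ^ B ≤ N →
    ∀ A : Finset ℤ, (∀ a ∈ A, |(a : ℝ)| ≤ Real.exp L ∧ ¬ Good U N 𝒬 (nbd ⌊Real.log N ^ W⌋₊ a)) →
      (A.card : ℝ) ≤ (𝒬.card : ℝ) ^ 2 / N * Real.log N ^ B := by
  classical
  obtain ⟨B, x₁, h⟩ := few_nbd U
  obtain ⟨x₂, hx₂⟩ := eventually_atTop.1 (log_pow_ev W)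
  obtain ⟨x₃, hx₃⟩ := eventually_atTop.1 (log_ev (9 * 13 ^ r + 9))
  refine ⟨B + 2 * W + r + 1, x₁ + x₂ + x₃ + 3, fun N hN 𝒬 hQ hr L hL hcond A hA => ?_⟩
  have hN0 : (0 : ℝ) < N := by exact_mod_cast (by omega : 0 < N)
  have e2 := hx₂ N (by omega)
  have e3 := hx₃ N (by omega)
  obtain ⟨Λ, hΛ⟩ : ∃ Λ, Λ = Real.log N := ⟨_, rfl⟩
  rw [← hΛ] at e2 e3 hcond ⊢
  have hp13 : (0 : ℝ) < 13 ^ r := by positivity
  have hΛ9 : 9 ≤ Λ := by linarith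
  have hΛ0 : 0 < Λ := by linarith
  have hΛ1 : 1 ≤ Λ := by linarith
  obtain ⟨H, hH⟩ : ∃ H : ℕ, H = ⌊Λ ^ W⌋₊ := ⟨_, rfl⟩
  have hHΛ : (H : ℝ) ≤ Λ ^ W := by rw [hH]; exact Nat.floor_le (by positivity)
  rw [← hΛ, ← hH] at hA
  -- the size of the differences
  obtain ⟨L', hL'⟩ : ∃ L', L' = max L Λ := ⟨_, rfl⟩
  have hL'1 : L ≤ L' := by rw [hL']; exact le_max_left _ _
  have hL'2 : Λ ≤ L' := by rw [hL']; exact le_max_right _ _
  have hL'3 : L' ≤ L * Λ := by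
    rw [hL', max_le_iff]
    exact ⟨le_mul_of_one_le_right (by linarith) hΛ1, le_mul_of_one_le_left hΛ0.le hL⟩
  have hL'0 : 1 ≤ L' := by linarith
  have hexp : (H : ℝ) ≤ Real.exp L' := by
    calc (H : ℝ) ≤ Λ ^ W := hHΛ
      _ ≤ N := e2
      _ = Real.exp Λ := by rw [hΛ, Real.exp_log hN0]
      _ ≤ _ := Real.exp_le_exp.2 hL'2
  have hM : (2 * H + 1 : ℝ) ≤ 3 * Λ ^ W := by
    have : 1 ≤ Λ ^ W := one_le_pow₀ hΛ1
    linarith
  have hK : ∀ m : ℤ, m ≠ 0 → |(m : ℝ)| ≤ 2 * Real.exp L' + 2 * H →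
      ((𝒬.filter (fun q : ℕ => (q : ℤ) ∣ m)).card : ℝ) ≤ (13 * L') ^ r := by
    intro m hm hmb
    have hm0 : m.natAbs ≠ 0 := Int.natAbs_ne_zero.2 hm
    have h1 : 𝒬.filter (fun q : ℕ => (q : ℤ) ∣ m) ⊆
        m.natAbs.divisors.filter (fun d => d.primeFactorsList.length ≤ r) := by
      intro q hq
      rw [mem_filter] at hq ⊢
      rw [Nat.mem_divisors]
      exact ⟨⟨Int.natCast_dvd.1 hq.2, hm0⟩, hr q hq.1⟩
    have h2 := (card_le_card h1).trans (card_div m.natAbs hm0 r)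
    have h3 : (m.natAbs : ℝ) ≤ Real.exp (L' + 4) := by
      have e1 : (m.natAbs : ℝ) = |(m : ℝ)| := by
        rw [← Int.cast_abs, Int.abs_eq_natAbs, Int.cast_natCast]
      have e4 : (4 : ℝ) ≤ Real.exp 4 := by
        have := Real.add_one_le_exp (4 : ℝ)
        linarith
      rw [e1, Real.exp_add]
      have := Real.exp_pos L'
      nlinarith
    have h4 := card_primes_le m.natAbs hm0 (L' + 4) h3
    calc ((𝒬.filter (fun q : ℕ => (q : ℤ) ∣ m)).card : ℝ) ≤ ((m.natAbs.primeFactors.card + 1 : ℕ) : ℝ) ^ r := by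
          exact_mod_cast h2
      _ ≤ (13 * L') ^ r := by
          apply pow_le_pow_left₀ (Nat.cast_nonneg _)
          push_cast
          linarith
  have hcond2 : (2 * H + 1) ^ 2 * (13 * L') ^ r * (𝒬.card * Λ ^ B) ≤ N := by
    calc ((2 * H + 1) ^ 2 * (13 * L') ^ r * (𝒬.card * Λ ^ B) : ℝ)
        ≤ (3 * Λ ^ W) ^ 2 * (13 * (L * Λ)) ^ r * (𝒬.card * Λ ^ B) := by gcongr
      _ = (9 * 13 ^ r) * ((𝒬.card : ℝ) * L ^ r * Λ ^ (B + 2 * W + r)) := by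
          rw [mul_pow 13 (L * Λ), mul_pow L Λ, mul_pow 3, ← pow_mul, pow_add, pow_add, mul_comm W 2]
          ring
      _ ≤ Λ * ((𝒬.card : ℝ) * L ^ r * Λ ^ (B + 2 * W + r)) := by
          gcongr
          linarith
      _ = (𝒬.card : ℝ) * L ^ r * Λ ^ (B + 2 * W + r + 1) := by rw [pow_succ]; ring
      _ ≤ N := hcond
  have hfin := h N (by omega) 𝒬 hQ H (Real.exp L') ((13 * L') ^ r) hK (by rw [← hΛ]; exact hcond2) A
    (fun a ha => ⟨(hA a ha).1.trans (Real.exp_le_exp.2 hL'1), (hA a ha).2⟩)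
  rw [← hΛ] at hfin
  refine hfin.trans ?_
  calc ((2 * H + 1) ^ 2 * ((𝒬.card : ℝ) ^ 2 / N * Λ ^ B) : ℝ) ≤ (3 * Λ ^ W) ^ 2 * ((𝒬.card : ℝ) ^ 2 / N * Λ ^ B) := by
        gcongr
    _ = 9 * ((𝒬.card : ℝ) ^ 2 / N * Λ ^ (B + 2 * W)) := by
        rw [mul_pow 3, ← pow_mul, pow_add, mul_comm W 2]
        ring
    _ ≤ Λ * ((𝒬.card : ℝ) ^ 2 / N * Λ ^ (B + 2 * W + r)) := by
        apply mul_le_mul hΛ9 _ (by positivity) hΛ0.le
        apply mul_le_mul_of_nonneg_left _ (by positivity)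
        exact pow_le_pow_right₀ hΛ1 (by omega)
    _ = (𝒬.card : ℝ) ^ 2 / N * Λ ^ (B + 2 * W + r + 1) := by
        rw [pow_succ]
        ring

end Pool.Agent.V7H6.HR
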