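import Pool.Agent.V7H6.HR.B2

/-! The number of the divisors `q ≤ Q` of a very large integer (Rankin's method). -/

set_option autoImplicit false

namespace Pool.Agent.V7H6.HR

open Finset Filter

/-- `n ↦ n ^ (-s)` -/
noncomputable def pw (s : ℝ) (hs : 0 < s) : ℕ →*₀ ℝ where
  toFun n := (n : ℝ) ^ (-s)
  map_zero' := by rw [Nat.cast_zero, Real.zero_rpow (by linarith)]
  map_one' := by rw [Nat.cast_one, Real.one_rpow]
  map_mul' a b := by rw [Nat.cast_mul, Real.mul_rpow (Nat.cast_nonneg _) (Nat.cast_nonneg _)]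

lemma pw_apply (s : ℝ) (hs : 0 < s) (n : ℕ) : pw s hs n = (n : ℝ) ^ (-s) := rfl

lemma pw_nonneg (s : ℝ) (hs : 0 < s) (n : ℕ) : 0 ≤ pw s hs n := by
  rw [pw_apply]; positivity

lemma pw_prime (s : ℝ) (hs : 0 < s) {p : ℕ} (hp : p.Prime) : pw s hs p ≤ (2 : ℝ) ^ (-s) := by
  rw [pw_apply]
  exact Real.rpow_le_rpow_of_nonpos (by norm_num) (by exact_mod_cast hp.two_le) (by linarith)

lemma two_lt (s : ℝ) (hs : 0 < s) : (2 : ℝ) ^ (-s) < 1 := Real.rpow_lt_one_of_one_lt_of_neg (by norm_num) (by linarith)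

lemma sum_div (s : ℝ) (hs : 0 < s) (m : ℕ) (hm : m ≠ 0) (D : Finset ℕ) (hD : ∀ q ∈ D, q ∣ m) :
    ∑ q ∈ D, (q : ℝ) ^ (-s) ≤ ∏ p ∈ m.primeFactors, (1 - (p : ℝ) ^ (-s))⁻¹ := by
  classical
  have h := (EulerProduct.summable_and_hasSum_factoredNumbers_prod_filter_prime_geometric (f := (pw s hs : ℕ →* ℝ)) (by
    intro p hp
    have h0 : ((pw s hs : ℕ →* ℝ)) p = pw s hs p := rfl
    rw [h0, Real.norm_of_nonneg (pw_nonneg s hs p)]
    exact (pw_prime s hs hp).trans_lt (two_lt s hs)) m.primeFactors).2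
  have h1 : m.primeFactors.filter Nat.Prime = m.primeFactors :=
    filter_true_of_mem fun p hp => Nat.prime_of_mem_primeFactors hp
  rw [h1] at h
  have hmem : ∀ q ∈ D, q ∈ Nat.factoredNumbers m.primeFactors := by
    intro q hq
    rw [Nat.mem_factoredNumbers]
    refine ⟨ne_zero_of_dvd_ne_zero hm (hD q hq), fun p hp => ?_⟩
    rw [Nat.mem_primeFactors]
    exact ⟨Nat.prime_of_mem_primeFactorsList hp, (Nat.dvd_of_mem_primeFactorsList hp).trans (hD q hq), hm⟩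
  have h2 := sum_le_hasSum (D.subtype (fun q => q ∈ Nat.factoredNumbers m.primeFactors)) (fun q _ => pw_nonneg s hs q) h
  refine le_trans (le_of_eq ?_) h2
  rw [sum_subtype_eq_sum_filter (f := fun q => pw s hs q), filter_true_of_mem hmem]
  rfl

lemma inv_le_exp (s : ℝ) (hs : 0 < s) {p : ℕ} (hp : p.Prime) :
    (1 - (p : ℝ) ^ (-s))⁻¹ ≤ Real.exp (1 / (1 - (2 : ℝ) ^ (-s)) * (p : ℝ) ^ (-s)) := by
  have h1 := pw_prime s hs hp
  rw [pw_apply] at h1
  have h2 := two_lt s hs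
  obtain ⟨t, ht⟩ : ∃ t, t = (p : ℝ) ^ (-s) := ⟨_, rfl⟩
  have ht0 : 0 ≤ t := by rw [ht]; positivity
  rw [← ht] at h1 ⊢
  have h3 : 0 < 1 - t := by linarith
  calc (1 - t)⁻¹ = t / (1 - t) + 1 := by field_simp; ring
    _ ≤ Real.exp (t / (1 - t)) := Real.add_one_le_exp _
    _ ≤ _ := by
        apply Real.exp_le_exp.2
        rw [div_mul_eq_mul_div, one_mul]
        apply div_le_div_of_nonneg_left ht0 (by linarith) (by linarith)

lemma sum_pow (s : ℝ) (hs : 0 < s) (hs1 : s < 1) (k : ℕ) : ∑ n ∈ Icc 1 k, (n : ℝ) ^ (-s) ≤ (k : ℝ) ^ (1 - s) / (1 - s) := by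
  induction k with
  | zero =>
    have : (0 : ℝ) < 1 - s := by linarith
    rw [show Icc 1 0 = (∅ : Finset ℕ) from rfl, sum_empty]
    positivity
  | succ k ih =>
    rw [sum_Icc_succ_top (by omega)]
    have hs' : 0 < 1 - s := by linarith
    obtain ⟨n, hn⟩ : ∃ n : ℝ, n = ((k + 1 : ℕ) : ℝ) := ⟨_, rfl⟩
    have hn1 : 1 ≤ n := by rw [hn]; push_cast; have : (0 : ℝ) ≤ k := Nat.cast_nonneg _; linarith
    have hn0 : 0 < n := by linarith
    have hk : (k : ℝ) = n * (1 + -(1 / n)) := by rw [hn]; push_cast; field_simp; ring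
    have h1 : (k : ℝ) ^ (1 - s) ≤ n ^ (1 - s) - (1 - s) * n ^ (-s) := by
      have h2 : -1 ≤ -(1 / n) := by
        have : 1 / n ≤ 1 := by rw [div_le_one hn0]; exact hn1
        linarith
      rw [hk, Real.mul_rpow hn0.le (by linarith)]
      have h3 := rpow_one_add_le_one_add_mul_self h2 hs'.le (by linarith : 1 - s ≤ 1)
      calc n ^ (1 - s) * (1 + -(1 / n)) ^ (1 - s) ≤ n ^ (1 - s) * (1 + (1 - s) * -(1 / n)) := by
            gcongr
        _ = n ^ (1 - s) - (1 - s) * (n ^ (1 - s) / n) := by ring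
        _ = _ := by
            rw [show (1 - s) = -s + 1 by ring, Real.rpow_add hn0, Real.rpow_one]
            field_simp
    rw [← hn]
    calc ∑ n ∈ Icc 1 k, (n : ℝ) ^ (-s) + n ^ (-s) ≤ (k : ℝ) ^ (1 - s) / (1 - s) + n ^ (-s) := by linarith
      _ ≤ (n ^ (1 - s) - (1 - s) * n ^ (-s)) / (1 - s) + n ^ (-s) := by gcongr
      _ = n ^ (1 - s) / (1 - s) := by field_simp; ring

lemma sum_set (s : ℝ) (hs : 0 < s) (hs1 : s < 1) (S : Finset ℕ) (hS : ∀ p ∈ S, 1 ≤ p) :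
    ∑ p ∈ S, (p : ℝ) ^ (-s) ≤ (1 / (1 - s) + 1) * (S.card : ℝ) ^ (1 - s) := by
  have hs' : 0 < 1 - s := by linarith
  rcases Nat.eq_zero_or_pos S.card with h0 | h0
  · rw [card_eq_zero.1 h0, sum_empty]
    positivity
  rw [← sum_filter_add_sum_filter_not S (fun p => p ≤ S.card)]
  have h1 : ∑ p ∈ S.filter (fun p => p ≤ S.card), (p : ℝ) ^ (-s) ≤ (S.card : ℝ) ^ (1 - s) / (1 - s) := by
    refine le_trans ?_ (sum_pow s hs hs1 S.card)
    apply sum_le_sum_of_subset_of_nonneg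
    · intro p hp
      rw [mem_filter] at hp
      exact mem_Icc.2 ⟨hS p hp.1, hp.2⟩
    · intro p _ _
      positivity
  have hc : (0 : ℝ) < S.card := by exact_mod_cast h0
  have h2 : ∑ p ∈ S.filter (fun p => ¬ p ≤ S.card), (p : ℝ) ^ (-s) ≤ (S.card : ℝ) ^ (1 - s) := by
    calc ∑ p ∈ S.filter (fun p => ¬ p ≤ S.card), (p : ℝ) ^ (-s)
        ≤ ∑ _p ∈ S.filter (fun p => ¬ p ≤ S.card), (S.card : ℝ) ^ (-s) := by
          apply sum_le_sum
          intro p hp
          rw [mem_filter] at hp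
          exact Real.rpow_le_rpow_of_nonpos hc (by exact_mod_cast (by omega : S.card ≤ p)) (by linarith)
      _ ≤ S.card * (S.card : ℝ) ^ (-s) := by
          rw [sum_const, nsmul_eq_mul]
          apply mul_le_mul_of_nonneg_right _ (by positivity)
          exact_mod_cast card_filter_le _ _
      _ = (S.card : ℝ) ^ (1 - s) := by
          rw [show (1 - s) = 1 + -s by ring, Real.rpow_add hc, Real.rpow_one]
  calc _ ≤ (S.card : ℝ) ^ (1 - s) / (1 - s) + (S.card : ℝ) ^ (1 - s) := add_le_add h1 h2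
    _ = _ := by ring

/-- **Rankin's bound** -/
theorem rankin (s : ℝ) (hs : 0 < s) (hs1 : s < 1) : ∃ c : ℝ, 0 < c ∧ ∀ m : ℕ, m ≠ 0 → ∀ Q : ℕ,
    (((Icc 1 Q).filter (fun q => q ∣ m)).card : ℝ) ≤ (Q : ℝ) ^ s * Real.exp (c * (m.primeFactors.card : ℝ) ^ (1 - s)) := by
  classical
  have h2 := two_lt s hs
  have hc0 : 0 < 1 / (1 - (2 : ℝ) ^ (-s)) := by
    apply one_div_pos.2
    linarith
  have hs' : 0 < 1 - s := by linarith
  refine ⟨1 / (1 - (2 : ℝ) ^ (-s)) * (1 / (1 - s) + 1), by positivity, fun m hm Q => ?_⟩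
  have h3 : (((Icc 1 Q).filter (fun q => q ∣ m)).card : ℝ) ≤
      (Q : ℝ) ^ s * ∑ q ∈ (Icc 1 Q).filter (fun q => q ∣ m), (q : ℝ) ^ (-s) := by
    rw [mul_sum, card_eq_sum_ones]
    push_cast
    apply sum_le_sum
    intro q hq
    rw [mem_filter, mem_Icc] at hq
    have hq0 : (0 : ℝ) < q := by exact_mod_cast hq.1.1
    rw [Real.rpow_neg hq0.le, ← div_eq_mul_inv, one_le_div (by positivity)]
    exact Real.rpow_le_rpow hq0.le (by exact_mod_cast hq.1.2) hs.le
  refine h3.trans ?_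
  apply mul_le_mul_of_nonneg_left _ (by positivity)
  refine (sum_div s hs m hm _ (fun q hq => (mem_filter.1 hq).2)).trans ?_
  calc ∏ p ∈ m.primeFactors, (1 - (p : ℝ) ^ (-s))⁻¹
      ≤ ∏ p ∈ m.primeFactors, Real.exp (1 / (1 - (2 : ℝ) ^ (-s)) * (p : ℝ) ^ (-s)) := by
        apply Finset.prod_le_prod
        · intro p hp
          have h5 := pw_prime s hs (Nat.prime_of_mem_primeFactors hp)
          rw [pw_apply] at h5
          apply inv_nonneg.2
          linarith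
        · intro p hp
          exact inv_le_exp s hs (Nat.prime_of_mem_primeFactors hp)
    _ = Real.exp (1 / (1 - (2 : ℝ) ^ (-s)) * ∑ p ∈ m.primeFactors, (p : ℝ) ^ (-s)) := by
        rw [← Real.exp_sum, mul_sum]
    _ ≤ _ := by
        apply Real.exp_le_exp.2
        rw [mul_assoc]
        apply mul_le_mul_of_nonneg_left _ hc0.le
        exact sum_set s hs hs1 _ (fun p hp => (Nat.prime_of_mem_primeFactors hp).one_le)

end Pool.Agent.V7H6.HR
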