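import Pool.Agent.V7H6.HR.C

/-! All moduli, residues of size `exp ((log x) ^ C)`. -/

set_option autoImplicit false

namespace Pool.Agent.V7H6.HR

open Finset Filter
open Pool.Agent.Y856

lemma pow_lt_log (c τ ε : ℝ) (hε : 0 < ε) (hτ : τ < 1) : ∀ᶠ N : ℕ in atTop, c * Real.log N ^ τ ≤ ε * Real.log N := by
  have h1 : Tendsto (fun x : ℝ => x ^ (1 - τ)) atTop atTop := tendsto_rpow_atTop (by linarith)
  have h2 := ((h1.comp Real.tendsto_log_atTop).comp (tendsto_natCast_atTop_atTop (R := ℝ))).eventually_ge_atTop (|c| / ε)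
  filter_upwards [h2, log_ev 1] with N hN hN1
  simp only [Function.comp] at hN
  have hL0 : 0 < Real.log N := by linarith
  rw [div_le_iff₀ hε] at hN
  have h3 : Real.log N ^ (1 - τ) * Real.log N ^ τ = Real.log N := by
    rw [← Real.rpow_add hL0]
    have : 1 - τ + τ = 1 := by ring
    rw [this, Real.rpow_one]
  have h4 : (0 : ℝ) ≤ Real.log N ^ τ := by positivity
  calc c * Real.log N ^ τ ≤ |c| * Real.log N ^ τ := mul_le_mul_of_nonneg_right (le_abs_self c) h4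
    _ ≤ (Real.log N ^ (1 - τ) * ε) * Real.log N ^ τ := mul_le_mul_of_nonneg_right hN h4
    _ = ε * (Real.log N ^ (1 - τ) * Real.log N ^ τ) := by ring
    _ = _ := by rw [h3]

lemma log_pow_rpow (M : ℕ) (c ε : ℝ) (hε : 0 < ε) : ∀ᶠ N : ℕ in atTop, c * Real.log N ^ M ≤ (N : ℝ) ^ ε := by
  have h1 := (isLittleO_log_rpow_rpow_atTop (s := ε) (M + 1) hε)
  have h2 := (h1.bound (c := 1) (by norm_num))
  have h3 := tendsto_natCast_atTop_atTop (R := ℝ) |>.eventually h2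
  filter_upwards [h3, log_ev (|c| + 1), eventually_ge_atTop 1] with N hN hN1 hN2
  have hL0 : 0 < Real.log N := by linarith [abs_nonneg c]
  have hN0 : (0 : ℝ) < N := by exact_mod_cast hN2
  rw [Real.norm_of_nonneg (by positivity), Real.norm_of_nonneg (by positivity), one_mul] at hN
  have h4 : Real.log N ^ ((M : ℝ) + 1) = Real.log N * Real.log N ^ M := by
    rw [Real.rpow_add hL0, Real.rpow_one, Real.rpow_natCast, mul_comm]
  rw [h4] at hN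
  refine le_trans ?_ hN
  apply mul_le_mul_of_nonneg_right _ (by positivity)
  have := le_abs_self c
  linarith

/-- **all moduli, residues of size `exp ((log x) ^ C)`** -/
theorem few_all (U W : ℕ) (C θ : ℝ) (hC : 1 ≤ C) (hθ : θ * (2 - 1 / C) < 1) : ∃ B x₀ : ℕ, ∀ N : ℕ, x₀ ≤ N →
    ∀ Q : ℕ, (Q : ℝ) ≤ (N : ℝ) ^ θ →
    ∀ A : Finset ℤ, (∀ a ∈ A, |(a : ℝ)| ≤ Real.exp (Real.log N ^ C) ∧
      ¬ Good U N (Icc 1 Q) (nbd ⌊Real.log N ^ W⌋₊ a)) →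
      (A.card : ℝ) ≤ (Q : ℝ) ^ 2 / N * Real.log N ^ B := by
  classical
  have hC0 : 0 < C := by linarith
  obtain ⟨σ, hσ⟩ : ∃ σ, σ = 1 - 1 / C := ⟨_, rfl⟩
  have hCi : 0 < 1 / C := by positivity
  have hCi1 : 1 / C ≤ 1 := by rw [div_le_one hC0]; exact hC
  have hσ0 : 0 ≤ σ := by linarith
  have hσ1 : σ < 1 := by linarith
  have hθσ : θ * (1 + σ) < 1 := by rw [hσ]; convert hθ using 2; ring
  have hθ1 : θ < 1 := by
    by_contra hcon
    push Not at hcon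
    nlinarith
  obtain ⟨η, hη⟩ : ∃ η, η = min ((1 - σ) / 2) ((1 - θ * (1 + σ)) / (2 * (|θ| + 1))) := ⟨_, rfl⟩
  have hη0 : 0 < η := by
    rw [hη]
    apply lt_min
    · linarith
    · apply div_pos (by linarith)
      have := abs_nonneg θ
      linarith
  have hη1 : η ≤ (1 - σ) / 2 := by rw [hη]; exact min_le_left _ _
  have hη2 : η * (2 * (|θ| + 1)) ≤ 1 - θ * (1 + σ) := by
    have h1 : η ≤ (1 - θ * (1 + σ)) / (2 * (|θ| + 1)) := by rw [hη]; exact min_le_right _ _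
    rwa [le_div_iff₀ (by have := abs_nonneg θ; linarith)] at h1
  obtain ⟨s, hs⟩ : ∃ s, s = σ + η := ⟨_, rfl⟩
  have hs0 : 0 < s := by linarith
  have hs1 : s < 1 := by linarith
  obtain ⟨ε, hε⟩ : ∃ ε, ε = (1 - θ * (1 + s)) / 3 := ⟨_, rfl⟩
  have hε0 : 0 < ε := by
    rw [hε]
    have h1 : θ * η ≤ |θ| * η := mul_le_mul_of_nonneg_right (le_abs_self θ) hη0.le
    have h2 : 0 ≤ |θ| * η := by positivity
    have h3 : θ * (1 + s) = θ * (1 + σ) + θ * η := by rw [hs]; ring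
    have h4 : 0 < 1 - θ * (1 + s) := by
      rw [h3]
      nlinarith
    linarith
  obtain ⟨τ, hτ⟩ : ∃ τ, τ = C * (1 - s) := ⟨_, rfl⟩
  have hτ1 : τ < 1 := by
    rw [hτ, hs, hσ]
    have : C * (1 - (1 - 1 / C + η)) = 1 - C * η := by field_simp; ring
    rw [this]
    have : 0 < C * η := by positivity
    linarith
  obtain ⟨c, hc0, hc⟩ := rankin s hs0 hs1
  obtain ⟨B, x₁, h⟩ := few_nbd U
  obtain ⟨x₂, hx₂⟩ := eventually_atTop.1 (log_pow_ev W)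
  obtain ⟨x₃, hx₃⟩ := eventually_atTop.1 (log_ev 9)
  obtain ⟨x₄, hx₄⟩ := eventually_atTop.1 (pow_lt_log (c * (9 : ℝ) ^ (1 - s)) τ ε hε0 hτ1)
  obtain ⟨x₅, hx₅⟩ := eventually_atTop.1 (log_pow_rpow (B + 2 * W) 9 ε hε0)
  refine ⟨B + 2 * W + 1, x₁ + x₂ + x₃ + x₄ + x₅ + 3, fun N hN Q hQ A hA => ?_⟩
  have hN0 : (0 : ℝ) < N := by exact_mod_cast (by omega : 0 < N)
  have hN1 : (1 : ℝ) ≤ N := by exact_mod_cast (by omega : 1 ≤ N)
  have e2 := hx₂ N (by omega)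
  have e3 := hx₃ N (by omega)
  have e4 := hx₄ N (by omega)
  have e5 := hx₅ N (by omega)
  obtain ⟨Λ, hΛ⟩ : ∃ Λ, Λ = Real.log N := ⟨_, rfl⟩
  rw [← hΛ] at e2 e3 e4 e5 ⊢
  have hΛ0 : 0 < Λ := by linarith
  have hΛ1 : 1 ≤ Λ := by linarith
  obtain ⟨H, hH⟩ : ∃ H : ℕ, H = ⌊Λ ^ W⌋₊ := ⟨_, rfl⟩
  have hHΛ : (H : ℝ) ≤ Λ ^ W := by rw [hH]; exact Nat.floor_le (by positivity)
  rw [← hΛ, ← hH] at hA
  have hΛC : Λ ≤ Λ ^ C := by
    calc Λ = Λ ^ (1 : ℝ) := (Real.rpow_one Λ).symm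
      _ ≤ Λ ^ C := Real.rpow_le_rpow_of_exponent_le hΛ1 hC
  have hexp : (H : ℝ) ≤ Real.exp (Λ ^ C) := by
    calc (H : ℝ) ≤ Λ ^ W := hHΛ
      _ ≤ N := e2
      _ = Real.exp Λ := by rw [hΛ, Real.exp_log hN0]
      _ ≤ _ := Real.exp_le_exp.2 hΛC
  have hM : (2 * H + 1 : ℝ) ≤ 3 * Λ ^ W := by
    have : 1 ≤ Λ ^ W := one_le_pow₀ hΛ1
    linarith
  have hQN : Q ≤ N := by
    have h1 : (N : ℝ) ^ θ ≤ N := by
      calc (N : ℝ) ^ θ ≤ (N : ℝ) ^ (1 : ℝ) := Real.rpow_le_rpow_of_exponent_le hN1 hθ1.le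
        _ = N := Real.rpow_one _
    exact_mod_cast hQ.trans h1
  have hcard : ((Icc 1 Q).card : ℝ) = Q := by rw [Nat.card_Icc, Nat.add_sub_cancel]
  have hK : ∀ m : ℤ, m ≠ 0 → |(m : ℝ)| ≤ 2 * Real.exp (Λ ^ C) + 2 * H →
      (((Icc 1 Q).filter (fun q : ℕ => (q : ℤ) ∣ m)).card : ℝ) ≤ (Q : ℝ) ^ s * (N : ℝ) ^ ε := by
    intro m hm hmb
    have hm0 : m.natAbs ≠ 0 := Int.natAbs_ne_zero.2 hm
    have h1 : (Icc 1 Q).filter (fun q : ℕ => (q : ℤ) ∣ m) = (Icc 1 Q).filter (fun q : ℕ => q ∣ m.natAbs) := by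
      apply filter_congr
      intro q _
      exact Int.natCast_dvd
    rw [h1]
    refine (hc m.natAbs hm0 Q).trans ?_
    apply mul_le_mul_of_nonneg_left _ (by positivity)
    have h3 : (m.natAbs : ℝ) ≤ Real.exp (Λ ^ C + 4) := by
      have e1 : (m.natAbs : ℝ) = |(m : ℝ)| := by
        rw [← Int.cast_abs, Int.abs_eq_natAbs, Int.cast_natCast]
      have e4 : (4 : ℝ) ≤ Real.exp 4 := by
        have := Real.add_one_le_exp (4 : ℝ)
        linarith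
      rw [e1, Real.exp_add]
      have := Real.exp_pos (Λ ^ C)
      nlinarith
    have h4 := card_primes_le m.natAbs hm0 (Λ ^ C + 4) h3
    have h5 : (m.natAbs.primeFactors.card : ℝ) ≤ 9 * Λ ^ C := by
      refine h4.trans ?_
      linarith
    have h6 : (m.natAbs.primeFactors.card : ℝ) ^ (1 - s) ≤ (9 : ℝ) ^ (1 - s) * Λ ^ τ := by
      calc (m.natAbs.primeFactors.card : ℝ) ^ (1 - s) ≤ (9 * Λ ^ C) ^ (1 - s) :=
            Real.rpow_le_rpow (Nat.cast_nonneg _) h5 (by linarith)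
        _ = _ := by
            rw [Real.mul_rpow (by norm_num) (by positivity), ← Real.rpow_mul hΛ0.le, hτ]
    calc Real.exp (c * (m.natAbs.primeFactors.card : ℝ) ^ (1 - s)) ≤ Real.exp (c * ((9 : ℝ) ^ (1 - s) * Λ ^ τ)) := by
          apply Real.exp_le_exp.2
          exact mul_le_mul_of_nonneg_left h6 hc0.le
      _ ≤ Real.exp (ε * Λ) := by
          apply Real.exp_le_exp.2
          rw [← mul_assoc]
          exact e4
      _ = (N : ℝ) ^ ε := by rw [Real.rpow_def_of_pos hN0, ← hΛ, mul_comm]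
  have hcond2 : (2 * H + 1) ^ 2 * ((Q : ℝ) ^ s * (N : ℝ) ^ ε) * ((Icc 1 Q).card * Λ ^ B) ≤ N := by
    rw [hcard]
    have hQs : (Q : ℝ) ^ s * Q ≤ (N : ℝ) ^ (θ * (1 + s)) := by
      rcases Nat.eq_zero_or_pos Q with h0 | h0
      · rw [h0, Nat.cast_zero, mul_zero]
        positivity
      · have hQ0 : (0 : ℝ) < Q := by exact_mod_cast h0
        calc (Q : ℝ) ^ s * Q = (Q : ℝ) ^ (1 + s) := by
              rw [add_comm, Real.rpow_add hQ0, Real.rpow_one]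
          _ ≤ ((N : ℝ) ^ θ) ^ (1 + s) := Real.rpow_le_rpow hQ0.le hQ (by linarith)
          _ = _ := by rw [← Real.rpow_mul hN0.le]
    calc ((2 * H + 1) ^ 2 * ((Q : ℝ) ^ s * (N : ℝ) ^ ε) * (Q * Λ ^ B) : ℝ)
        ≤ (3 * Λ ^ W) ^ 2 * ((Q : ℝ) ^ s * (N : ℝ) ^ ε) * (Q * Λ ^ B) := by gcongr
      _ = ((Q : ℝ) ^ s * Q) * ((N : ℝ) ^ ε * (9 * Λ ^ (B + 2 * W))) := by
          rw [mul_pow 3, ← pow_mul, pow_add, mul_comm W 2]
          ring
      _ ≤ (N : ℝ) ^ (θ * (1 + s)) * ((N : ℝ) ^ ε * (N : ℝ) ^ ε) := by gcongr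
      _ = (N : ℝ) ^ (θ * (1 + s) + (ε + ε)) := by rw [← Real.rpow_add hN0, ← Real.rpow_add hN0]
      _ ≤ (N : ℝ) ^ (1 : ℝ) := by
          apply Real.rpow_le_rpow_of_exponent_le hN1
          linarith
      _ = N := Real.rpow_one _
  have hfin := h N (by omega) (Icc 1 Q) (Icc_subset_Icc le_rfl hQN) H (Real.exp (Λ ^ C)) ((Q : ℝ) ^ s * (N : ℝ) ^ ε) hK
    (by rw [← hΛ]; exact hcond2) A hA
  rw [← hΛ, hcard] at hfin
  refine hfin.trans ?_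
  calc ((2 * H + 1) ^ 2 * ((Q : ℝ) ^ 2 / N * Λ ^ B) : ℝ) ≤ (3 * Λ ^ W) ^ 2 * ((Q : ℝ) ^ 2 / N * Λ ^ B) := by
        gcongr
    _ = 9 * ((Q : ℝ) ^ 2 / N * Λ ^ (B + 2 * W)) := by
        rw [mul_pow 3, ← pow_mul, pow_add, mul_comm W 2]
        ring
    _ ≤ Λ * ((Q : ℝ) ^ 2 / N * Λ ^ (B + 2 * W)) := by
        apply mul_le_mul_of_nonneg_right e3 (by positivity)
    _ = (Q : ℝ) ^ 2 / N * Λ ^ (B + 2 * W + 1) := by
        rw [pow_succ]
        ring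

end Pool.Agent.V7H6.HR
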